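import Mathlib

set_option autoImplicit false

open Set Filter Topology Metric

namespace Pool.Agent.Helper114.Montel

/-- Equicontinuity of a bounded family of holomorphic functions. -/
theorem equicont {W : Set ℂ} (hWo : IsOpen W) (F : ℕ → ℂ → ℂ)
    (hF : ∀ n, DifferentiableOn ℂ (F n) W) (M : ℝ) (hM : ∀ n, ∀ z ∈ W, ‖F n z‖ ≤ M)
    {x : ℂ} (hx : x ∈ W) {ε : ℝ} (hε : 0 < ε) :
    ∀ᶠ y in 𝓝 x, ∀ n, dist (F n y) (F n x) < ε := by
  have hM0 : 0 ≤ M := (norm_nonneg _).trans (hM 0 x hx)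
  obtain ⟨r, hr, hrW⟩ := Metric.isOpen_iff.1 hWo x hx
  have hc : 0 < (2 * M + 1) / r := by positivity
  have h1 : ∀ᶠ y in 𝓝 x, dist y x < min r (ε / ((2 * M + 1) / r)) :=
    Metric.ball_mem_nhds x (by positivity)
  filter_upwards [h1] with y hy n
  have hy1 : y ∈ ball x r := lt_of_lt_of_le hy (min_le_left _ _)
  have hy2 : dist y x < ε / ((2 * M + 1) / r) := lt_of_lt_of_le hy (min_le_right _ _)
  have hmaps : MapsTo (F n) (ball x r) (ball (F n x) (2 * M + 1)) := by
    intro w hw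
    rw [mem_ball, dist_eq_norm]
    calc ‖F n w - F n x‖ ≤ ‖F n w‖ + ‖F n x‖ := norm_sub_le _ _
      _ ≤ M + M := add_le_add (hM n w (hrW hw)) (hM n x hx)
      _ < 2 * M + 1 := by linarith
  have h2 := Complex.dist_le_div_mul_dist_of_mapsTo_ball ((hF n).mono hrW)
    (hmaps.mono_right ball_subset_closedBall) hy1
  refine lt_of_le_of_lt h2 ?_
  rw [lt_div_iff₀ hc] at hy2
  linarith

/-- Montel along an ultrafilter. -/
theorem montel {W : Set ℂ} (hWo : IsOpen W) (F : ℕ → ℂ → ℂ)
    (hF : ∀ n, DifferentiableOn ℂ (F n) W) (M : ℝ) (hM : ∀ n, ∀ z ∈ W, ‖F n z‖ ≤ M)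
    (𝒰 : Ultrafilter ℕ) :
    ∃ Φ : ℂ → ℂ, DifferentiableOn ℂ Φ W ∧
      TendstoLocallyUniformlyOn F Φ (𝒰 : Filter ℕ) W := by
  have h1 : ∀ z, ∃ v : ℂ, z ∈ W → Tendsto (fun n => F n z) 𝒰 (𝓝 v) := by
    intro z
    by_cases hz : z ∈ W
    · have hcomp := isCompact_closedBall (0 : ℂ) M
      have hle : ((𝒰.map (fun n => F n z) : Ultrafilter ℂ) : Filter ℂ) ≤ 𝓟 (closedBall 0 M) := by
        rw [le_principal_iff, Ultrafilter.coe_map, Filter.mem_map]
        refine Filter.mem_of_superset Filter.univ_mem ?_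
        intro n _
        show F n z ∈ closedBall 0 M
        rw [mem_closedBall_zero_iff]
        exact hM n z hz
      obtain ⟨v, -, hv⟩ := hcomp.ultrafilter_le_nhds _ hle
      exact ⟨v, fun _ => hv⟩
    · exact ⟨0, fun h => absurd h hz⟩
  choose Φ hΦ using h1
  have hlu : TendstoLocallyUniformlyOn F Φ (𝒰 : Filter ℕ) W := by
    rw [Metric.tendstoLocallyUniformlyOn_iff]
    intro ε hε x hx
    have h2 := equicont hWo F hF M hM hx (show 0 < ε / 4 by linarith)
    refine ⟨{y | ∀ n, dist (F n y) (F n x) < ε / 4} ∩ W, ?_, ?_⟩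
    · exact inter_mem (mem_nhdsWithin_of_mem_nhds h2) self_mem_nhdsWithin
    · have h3 : ∀ᶠ n in (𝒰 : Filter ℕ), dist (F n x) (Φ x) < ε / 4 :=
        (hΦ x hx) (Metric.ball_mem_nhds _ (by linarith))
      filter_upwards [h3] with n hn y hy
      have h4 : dist (Φ y) (Φ x) ≤ ε / 4 := by
        refine le_of_tendsto ((hΦ y hy.2).dist (hΦ x hx)) ?_
        exact Eventually.of_forall fun m => (hy.1 m).le
      have h5 := hy.1 n
      calc dist (Φ y) (F n y) ≤ dist (Φ y) (Φ x) + dist (Φ x) (F n x) + dist (F n x) (F n y) :=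
            dist_triangle4 _ _ _ _
        _ < ε := by
            rw [dist_comm (Φ x), dist_comm (F n x) (F n y)]
            linarith
  exact ⟨Φ, hlu.differentiableOn (Eventually.of_forall hF) hWo, hlu⟩

/-- Hurwitz: near a point where the limit is not locally constant, the approximating functions
cover a fixed neighbourhood of the limit value. -/
theorem hurwitz_cover {ι : Type} {l : Filter ι} [l.NeBot] {W : Set ℂ} (hWo : IsOpen W)
    (F : ι → ℂ → ℂ) (Φ : ℂ → ℂ) (hF : ∀ i, DifferentiableOn ℂ (F i) W)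
    (hlim : TendstoLocallyUniformlyOn F Φ l W) {x : ℂ} (hx : x ∈ W)
    (hnc : ¬ ∀ᶠ z in 𝓝 x, Φ z = Φ x) {B : Set ℂ} (hB : B ∈ 𝓝 x) :
    ∃ V ∈ 𝓝 (Φ x), ∀ᶠ i in l, V ⊆ F i '' B := by
  have hΦd : DifferentiableOn ℂ Φ W := hlim.differentiableOn (Eventually.of_forall hF) hWo
  have hΦa : AnalyticAt ℂ Φ x := hΦd.analyticAt (hWo.mem_nhds hx)
  have hne : ∀ᶠ z in 𝓝[≠] x, Φ z ≠ Φ x := by
    rcases hΦa.eventually_eq_or_eventually_ne (analyticAt_const (v := Φ x)) with h | h
    · exact absurd h hnc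
    · exact h
  rw [eventually_nhdsWithin_iff] at hne
  have hnb : {z | z ∈ ({x} : Set ℂ)ᶜ → Φ z ≠ Φ x} ∩ (W ∩ B) ∈ 𝓝 x :=
    inter_mem hne (inter_mem (hWo.mem_nhds hx) hB)
  obtain ⟨r0, hr0, hr0s⟩ := Metric.mem_nhds_iff.1 hnb
  set r := r0 / 2 with hr
  have hrpos : 0 < r := by rw [hr]; linarith
  have hrr : closedBall x r ⊆ ball x r0 := closedBall_subset_ball (by rw [hr]; linarith)
  have hcW : closedBall x r ⊆ W := fun z hz => (hr0s (hrr hz)).2.1
  have hcB : closedBall x r ⊆ B := fun z hz => (hr0s (hrr hz)).2.2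
  have hbW : ball x r0 ⊆ W := fun z hz => (hr0s hz).2.1
  -- minimum on the sphere
  have hcont : ContinuousOn (fun z => ‖Φ z - Φ x‖) (sphere x r) :=
    ((hΦd.continuousOn.mono (sphere_subset_closedBall.trans hcW)).sub continuousOn_const).norm
  have hsne : (sphere x r).Nonempty := NormedSpace.sphere_nonempty.2 hrpos.le
  obtain ⟨z0, hz0, hmin⟩ := (isCompact_sphere x r).exists_isMinOn hsne hcont
  set m := ‖Φ z0 - Φ x‖ with hm
  have hz0x : z0 ≠ x := by
    rintro rfl
    rw [mem_sphere, dist_self] at hz0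
    linarith
  have hmpos : 0 < m := by
    rw [hm, norm_pos_iff, sub_ne_zero]
    exact (hr0s (hrr (sphere_subset_closedBall hz0))).1 hz0x
  have hunif : TendstoUniformlyOn F Φ l (closedBall x r) :=
    (tendstoLocallyUniformlyOn_iff_forall_isCompact hWo).1 hlim _ hcW (isCompact_closedBall _ _)
  refine ⟨ball (Φ x) (m / 8), Metric.ball_mem_nhds _ (by positivity), ?_⟩
  have hev := (Metric.tendstoUniformlyOn_iff.1 hunif) (m / 8) (by positivity)
  filter_upwards [hev] with i hi
  have hxc : x ∈ closedBall x r := mem_closedBall_self hrpos.le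
  have h1 : ∀ z ∈ sphere x r, m / 2 ≤ ‖F i z - F i x‖ := by
    intro z hz
    have e1 := hi z (sphere_subset_closedBall hz)
    have e2 := hi x hxc
    have e3 : m ≤ ‖Φ z - Φ x‖ := hmin hz
    rw [← dist_eq_norm] at e3 ⊢
    have e4 := dist_triangle4 (Φ z) (F i z) (F i x) (Φ x)
    rw [dist_comm (F i x) (Φ x)] at e4
    linarith
  have hfr : ∃ᶠ z in 𝓝 x, F i z ≠ F i x := by
    rw [Filter.Frequently]
    intro hcon
    have hcon' : ∀ᶠ z in 𝓝 x, F i z = F i x := by
      filter_upwards [hcon] with z hz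
      exact not_not.1 hz
    have han : AnalyticOnNhd ℂ (F i) (ball x r0) := ((hF i).mono hbW).analyticOnNhd isOpen_ball
    have heq := han.eqOn_of_preconnected_of_eventuallyEq (analyticOnNhd_const (v := F i x))
      (convex_ball x r0).isPreconnected (mem_ball_self hr0) hcon'
    have h2 := h1 z0 hz0
    have h3 : F i z0 = F i x := heq (hrr (sphere_subset_closedBall hz0))
    rw [h3, sub_self, norm_zero] at h2
    linarith
  have hdc : DiffContOnCl ℂ (F i) (ball x r) := by
    apply DifferentiableOn.diffContOnCl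
    rw [closure_ball x hrpos.ne']
    exact (hF i).mono hcW
  have h4 := hdc.ball_subset_image_closedBall hrpos h1 hfr
  intro v hv
  have h5 : v ∈ ball (F i x) (m / 2 / 2) := by
    rw [mem_ball] at hv ⊢
    have e2 := hi x hxc
    calc dist v (F i x) ≤ dist v (Φ x) + dist (Φ x) (F i x) := dist_triangle _ _ _
      _ < m / 8 + m / 8 := add_lt_add hv e2
      _ = m / 2 / 2 := by ring
  obtain ⟨w, hw, hwv⟩ := h4 h5
  exact ⟨w, hcB hw, hwv⟩

/-- Hurwitz: a locally uniform limit of injective holomorphic functions on a domain is injective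
or constant. -/
theorem hurwitz_inj {ι : Type} {l : Filter ι} [l.NeBot] {W : Set ℂ} (hWo : IsOpen W)
    (hWc : IsPreconnected W)
    (F : ι → ℂ → ℂ) (Φ : ℂ → ℂ) (hF : ∀ i, DifferentiableOn ℂ (F i) W)
    (hinj : ∀ i, InjOn (F i) W)
    (hlim : TendstoLocallyUniformlyOn F Φ l W) :
    InjOn Φ W ∨ ∃ c, ∀ z ∈ W, Φ z = c := by
  by_contra hcon
  push Not at hcon
  obtain ⟨hni, hnc⟩ := hcon
  have hΦd : DifferentiableOn ℂ Φ W := hlim.differentiableOn (Eventually.of_forall hF) hWo
  have hΦa : AnalyticOnNhd ℂ Φ W := hΦd.analyticOnNhd hWo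
  have hloc : ∀ x ∈ W, ¬ ∀ᶠ z in 𝓝 x, Φ z = Φ x := by
    intro x hx h
    have heq := hΦa.eqOn_of_preconnected_of_eventuallyEq (analyticOnNhd_const (v := Φ x))
      hWc hx h
    obtain ⟨z, hz, hz'⟩ := hnc (Φ x)
    exact hz' (heq hz)
  unfold InjOn at hni
  push Not at hni
  obtain ⟨a, ha, b, hb, hab, hne⟩ := hni
  obtain ⟨A, B, hA, hB, hd⟩ := t2_separation_nhds hne
  obtain ⟨V1, hV1, hev1⟩ := hurwitz_cover hWo F Φ hF hlim ha (hloc a ha)
    (inter_mem hA (hWo.mem_nhds ha))
  obtain ⟨V2, hV2, hev2⟩ := hurwitz_cover hWo F Φ hF hlim hb (hloc b hb)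
    (inter_mem hB (hWo.mem_nhds hb))
  obtain ⟨i, hi1, hi2⟩ := (hev1.and hev2).exists
  obtain ⟨a', ha', hva⟩ := hi1 (mem_of_mem_nhds hV1)
  obtain ⟨b', hb', hvb⟩ := hi2 (mem_of_mem_nhds hV2)
  have h1 : a' = b' := hinj i ha'.2 hb'.2 (by rw [hva, hvb, hab])
  rw [← h1] at hb'
  exact (Set.disjoint_left.1 hd) ha'.1 hb'.1

/-- An injective holomorphic function has nonvanishing derivative. -/
theorem deriv_ne_zero_of_injOn {W : Set ℂ} (hWo : IsOpen W) (F : ℂ → ℂ)
    (hF : DifferentiableOn ℂ F W) (hinj : InjOn F W) {z : ℂ} (hz : z ∈ W) : deriv F z ≠ 0 := by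
  intro hd0
  obtain ⟨r0, hr0, hr0W⟩ := Metric.isOpen_iff.1 hWo z hz
  set r := r0 / 2 with hr
  have hrpos : 0 < r := by rw [hr]; linarith
  have hFa : AnalyticOnNhd ℂ F W := hF.analyticOnNhd hWo
  set h : ℕ → ℂ := fun n => ((r / (n + 1) : ℝ) : ℂ) with hh
  have hhne : ∀ n, h n ≠ 0 := by
    intro n
    simp only [hh]
    have : r / ((n : ℝ) + 1) ≠ 0 := by positivity
    exact_mod_cast this
  have hhn : ∀ n, ‖h n‖ ≤ r := by
    intro n
    simp only [hh]
    rw [Complex.norm_real, Real.norm_of_nonneg (by positivity)]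
    apply div_le_self hrpos.le
    have : (0 : ℝ) ≤ n := Nat.cast_nonneg n
    linarith
  have hh0 : Tendsto h atTop (𝓝 0) := by
    have h1 : Tendsto (fun n : ℕ => r / ((n : ℝ) + 1)) atTop (𝓝 0) := by
      have h3 := (tendsto_const_div_atTop_nhds_zero_nat r).comp (tendsto_add_atTop_nat 1)
      refine h3.congr fun n => ?_
      simp
    have h2 := (Complex.continuous_ofReal.tendsto 0).comp h1
    rw [Complex.ofReal_zero] at h2
    exact h2
  set G : ℕ → ℂ → ℂ := fun n w => (F (w + h n) - F w) / h n with hG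
  have hbr : ball z r ⊆ ball z r0 := ball_subset_ball (by rw [hr]; linarith)
  have hsh : ∀ n, ∀ w ∈ ball z r, w + h n ∈ W := by
    intro n w hw
    apply hr0W
    rw [mem_ball] at hw ⊢
    calc dist (w + h n) z ≤ dist (w + h n) w + dist w z := dist_triangle _ _ _
      _ < r + r := by
          have : dist (w + h n) w = ‖h n‖ := by rw [dist_eq_norm]; simp
          rw [this]
          have := hhn n
          linarith
      _ = r0 := by rw [hr]; ring
  have hGd : ∀ n, DifferentiableOn ℂ (G n) (ball z r) := by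
    intro n
    apply DifferentiableOn.div_const
    apply DifferentiableOn.sub
    · exact hF.comp (differentiableOn_id.add_const _) (hsh n)
    · exact hF.mono (hbr.trans hr0W)
  have hlim : TendstoLocallyUniformlyOn G (deriv F) atTop (ball z r) := by
    rw [Metric.tendstoLocallyUniformlyOn_iff]
    intro ε hε x hx
    have hxW : x ∈ W := hr0W (hbr hx)
    have hstr : HasStrictDerivAt F (deriv F x) x := (hFa x hxW).hasStrictDerivAt
    have hcd : ContinuousAt (deriv F) x := (hFa x hxW).deriv.continuousAt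
    have h1 := (hasDerivAtFilter_iff_isLittleO.1 hstr).def (show 0 < ε / 3 by linarith)
    have h2 : ∀ᶠ w in 𝓝 x, dist (deriv F w) (deriv F x) < ε / 3 :=
      hcd (Metric.ball_mem_nhds _ (by linarith))
    have h3 : Tendsto (fun q : ℕ × ℂ => (q.2 + h q.1, q.2)) (atTop ×ˢ 𝓝 x) (𝓝 (x, x)) := by
      rw [nhds_prod_eq]
      apply Tendsto.prodMk
      · have h4 : Tendsto (fun q : ℕ × ℂ => q.2 + h q.1) (atTop ×ˢ 𝓝 x) (𝓝 (x + 0)) :=
          tendsto_snd.add (hh0.comp tendsto_fst)
        rwa [add_zero] at h4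
      · exact tendsto_snd
    have h4 := h3.eventually h1
    obtain ⟨pa, hpa, pb, hpb, hpab⟩ := eventually_prod_iff.1 h4
    refine ⟨{w | pb w ∧ dist (deriv F w) (deriv F x) < ε / 3}, ?_, ?_⟩
    · exact mem_nhdsWithin_of_mem_nhds (hpb.and h2)
    · filter_upwards [hpa] with n hn w hw
      have h5 := hpab hn hw.1
      simp only [add_sub_cancel_left, smul_eq_mul] at h5
      have h6 : dist (G n w) (deriv F x) ≤ ε / 3 := by
        rw [dist_eq_norm]
        have e : G n w - deriv F x = (F (w + h n) - F w - h n * deriv F x) / h n := by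
          simp only [hG]
          field_simp [hhne n]
        rw [e, norm_div, div_le_iff₀ (norm_pos_iff.2 (hhne n))]
        exact h5
      calc dist (deriv F w) (G n w) ≤ dist (deriv F w) (deriv F x) + dist (deriv F x) (G n w) :=
            dist_triangle _ _ _
        _ < ε := by
            rw [dist_comm (deriv F x)]
            linarith [hw.2]
  have hnc : ¬ ∀ᶠ w in 𝓝 z, deriv F w = deriv F z := by
    intro hcon
    rw [hd0] at hcon
    obtain ⟨s, hs, hss⟩ := Metric.mem_nhds_iff.1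
      (inter_mem hcon (hWo.mem_nhds hz))
    have h1 : ∀ w ∈ ball z s, F w = F z := by
      intro w hw
      apply (convex_ball z s).is_const_of_fderivWithin_eq_zero (𝕜 := ℂ) ?_ ?_ hw (mem_ball_self hs)
      · exact hF.mono fun y hy => (hss hy).2
      · intro y hy
        rw [fderivWithin_of_isOpen isOpen_ball hy]
        have : deriv F y = 0 := (hss hy).1
        ext
        simpa using this
    have h2 : z + ((s / 2 : ℝ) : ℂ) ∈ ball z s := by
      rw [mem_ball, dist_eq_norm, add_sub_cancel_left, Complex.norm_real,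
        Real.norm_of_nonneg (by positivity)]
      linarith
    have h3 := hinj (hss h2).2 hz (h1 _ h2)
    have h4 : ((s / 2 : ℝ) : ℂ) = 0 := by
      have := congrArg (fun t => t - z) h3
      simpa using this
    have h5 : s / 2 = 0 := by exact_mod_cast h4
    linarith
  obtain ⟨V, hV, hev⟩ := hurwitz_cover isOpen_ball G (deriv F) hGd hlim (mem_ball_self hrpos) hnc
    (ball_mem_nhds z hrpos)
  obtain ⟨n, hn⟩ := hev.exists
  rw [hd0] at hV
  obtain ⟨w, hw, hw0⟩ := hn (mem_of_mem_nhds hV)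
  simp only [hG] at hw0
  rw [div_eq_zero_iff, or_iff_left (hhne n), sub_eq_zero] at hw0
  have h1 := hinj (hsh n w hw) (hr0W (hbr hw)) hw0
  exact hhne n (by simpa using h1)

end Pool.Agent.Helper114.Montel
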