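import Mathlib

set_option autoImplicit false

open Set Filter Topology

namespace Pool.Agent.Helper114.Rot

lemma polar_preconn (z0 : ℂ) (S : Set ℝ) (hS : IsPreconnected S) (h0 : ∀ r ∈ S, 0 ≤ r) :
    IsPreconnected {z : ℂ | ‖z - z0‖ ∈ S} := by
  have h := (hS.prod isPreconnected_univ).image
    (fun p : ℝ × ℝ => z0 + p.1 * Complex.exp (p.2 * Complex.I)) (by fun_prop)
  convert h using 1
  ext z
  constructor
  · intro hz
    refine ⟨(‖z - z0‖, Complex.arg (z - z0)), ⟨hz, mem_univ _⟩, ?_⟩
    change z0 + ‖z - z0‖ * Complex.exp (Complex.arg (z - z0) * Complex.I) = z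
    rw [Complex.norm_mul_exp_arg_mul_I]; ring
  · rintro ⟨⟨r, t⟩, ⟨hr, _⟩, rfl⟩
    change ‖z0 + r * Complex.exp (t * Complex.I) - z0‖ ∈ S
    rw [add_sub_cancel_left, norm_mul, Complex.norm_exp_ofReal_mul_I, mul_one, Complex.norm_real,
      Real.norm_of_nonneg (h0 r hr)]
    exact hr

lemma annulus_preconn (R : ℝ) : IsPreconnected {z : ℂ | 1 < ‖z‖ ∧ ‖z‖ < R} := by
  have := polar_preconn 0 (Ioo 1 R) isPreconnected_Ioo (fun r hr => by have := hr.1; linarith)
  simpa using this

lemma annulus_open (R : ℝ) : IsOpen {z : ℂ | 1 < ‖z‖ ∧ ‖z‖ < R} :=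
  (isOpen_lt continuous_const continuous_norm).inter (isOpen_lt continuous_norm continuous_const)

/-- the point of the circle with parameter `x` -/
noncomputable def ee (x : ℝ) : ℂ := Complex.exp (2 * Real.pi * Complex.I * x)

lemma norm_ee (x : ℝ) : ‖ee x‖ = 1 := by
  have : (2 * Real.pi * Complex.I * x : ℂ) = ((2 * Real.pi * x : ℝ) : ℂ) * Complex.I := by
    push_cast; ring
  rw [ee, this, Complex.norm_exp_ofReal_mul_I]

lemma ee_add (x y : ℝ) : ee (x + y) = ee x * ee y := by
  rw [ee, ee, ee, ← Complex.exp_add]; push_cast; ring_nf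

lemma ee_zero : ee 0 = 1 := by simp [ee]

lemma ee_one : ee 1 = 1 := by
  have := Complex.exp_two_pi_mul_I
  simpa [ee] using this

lemma ee_deriv (x : ℝ) : HasDerivAt ee (ee x * (2 * Real.pi * Complex.I)) x := by
  have h1 : HasDerivAt (fun x : ℝ => (2 * Real.pi * Complex.I * x : ℂ)) (2 * Real.pi * Complex.I) x := by
    have := (Complex.ofRealCLM.hasDerivAt (x := x)).const_mul (2 * Real.pi * Complex.I : ℂ)
    simpa using this
  exact h1.cexp

lemma ee_cont : Continuous ee := by unfold ee; fun_prop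

/-- A holomorphic self-map of an annulus commuting with an irrational rotation is a rotation. -/
theorem commute_rot {R : ℝ} (hR : 1 < R) {θ : ℝ} (hθ : Irrational θ) (k : ℂ → ℂ)
    (hk : DifferentiableOn ℂ k {z | 1 < ‖z‖ ∧ ‖z‖ < R})
    (hm : ∀ z : ℂ, 1 < ‖z‖ → ‖z‖ < R → 1 < ‖k z‖ ∧ ‖k z‖ < R)
    (hc : ∀ z : ℂ, 1 < ‖z‖ → ‖z‖ < R →
      k (Complex.exp (2 * Real.pi * Complex.I * θ) * z) =
        Complex.exp (2 * Real.pi * Complex.I * θ) * k z) :
    ∃ c : ℂ, ‖c‖ = 1 ∧ ∀ z : ℂ, 1 < ‖z‖ → ‖z‖ < R → k z = c * z := by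
  set A : Set ℂ := {z | 1 < ‖z‖ ∧ ‖z‖ < R} with hA
  have hAo : IsOpen A := annulus_open R
  have hAc : IsPreconnected A := annulus_preconn R
  have hrot : ∀ x : ℝ, ∀ z ∈ A, ee x * z ∈ A := by
    intro x z hz
    have : ‖ee x * z‖ = ‖z‖ := by rw [norm_mul, norm_ee, one_mul]
    rw [hA, Set.mem_ofPred_eq, this]
    exact hz
  have hne : ∀ z ∈ A, z ≠ 0 := by
    intro z hz h
    rw [h] at hz
    have := hz.1
    rw [norm_zero] at this
    linarith
  let m : ℂ → ℂ := fun z => k z / z
  have hmd : DifferentiableOn ℂ m A := hk.div differentiableOn_id hne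
  -- invariance
  let P : AddSubgroup ℝ :=
    { carrier := {x | ∀ w ∈ A, m (ee x * w) = m w}
      zero_mem' := by intro w _; rw [ee_zero, one_mul]
      add_mem' := by
        intro x y hx hy w hw
        rw [ee_add, mul_assoc, hx _ (hrot y w hw), hy w hw]
      neg_mem' := by
        intro x hx w hw
        have h1 := hx _ (hrot (-x) w hw)
        rw [← mul_assoc, ← ee_add, add_neg_cancel, ee_zero, one_mul] at h1
        exact h1.symm }
  have hPθ : θ ∈ P := by
    intro w hw
    have h1 : k (ee θ * w) = ee θ * k w := hc w hw.1 hw.2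
    have h2 : ee θ ≠ 0 := Complex.exp_ne_zero _
    change k (ee θ * w) / (ee θ * w) = k w / w
    rw [h1, mul_div_mul_left _ _ h2]
  have hP1 : (1 : ℝ) ∈ P := by
    intro w _
    rw [ee_one, one_mul]
  have hPc : IsClosed (P : Set ℝ) := by
    have : (P : Set ℝ) = ⋂ w ∈ A, {x | m (ee x * w) = m w} := by
      ext x
      simp only [mem_iInter]
      rfl
    rw [this]
    refine isClosed_biInter fun w hw => ?_
    refine isClosed_eq ?_ continuous_const
    exact hmd.continuousOn.comp_continuous (ee_cont.mul continuous_const) (fun x => hrot x w hw)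
  have hPall : ∀ x : ℝ, x ∈ P := by
    have hd : Dense (AddSubgroup.closure {θ, 1} : Set ℝ) := by
      rw [dense_addSubgroupClosure_pair_iff, div_one]; exact hθ
    have hle : AddSubgroup.closure {θ, 1} ≤ P := by
      rw [AddSubgroup.closure_le]
      intro x hx
      rcases hx with h | h
      · rw [h]; exact hPθ
      · rw [mem_singleton_iff.1 h]; exact hP1
    intro x
    have h1 : x ∈ closure (AddSubgroup.closure {θ, 1} : Set ℝ) := hd x
    exact hPc.closure_subset_iff.2 hle h1
  -- the derivative vanishes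
  have hderiv : A.EqOn (deriv m) 0 := by
    intro z hz
    have h1 : HasDerivAt m (deriv m z) (ee 0 * z) := by
      rw [ee_zero, one_mul]
      exact (hmd.differentiableAt (hAo.mem_nhds hz)).hasDerivAt
    have h2 : HasDerivAt (fun t : ℝ => ee t * z) (ee 0 * (2 * Real.pi * Complex.I) * z) 0 :=
      (ee_deriv 0).mul_const z
    have h3 := HasDerivAt.comp (0 : ℝ) h1 h2
    have h4 : (m ∘ fun t : ℝ => ee t * z) = fun _ => m z := by
      funext t
      exact hPall t z hz
    rw [h4] at h3
    have h5 := h3.unique (hasDerivAt_const _ _)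
    rw [ee_zero, one_mul] at h5
    rcases mul_eq_zero.1 h5 with h | h
    · exact h
    · exfalso
      rcases mul_eq_zero.1 h with h | h
      · have : (2 * Real.pi * Complex.I : ℂ) ≠ 0 := by
          simp [Real.pi_ne_zero]
        exact this h
      · exact hne z hz h
  have hz0 : (((1 + R) / 2 : ℝ) : ℂ) ∈ A := by
    rw [hA, Set.mem_ofPred_eq, Complex.norm_real, Real.norm_of_nonneg (by linarith)]
    constructor <;> linarith
  obtain ⟨c, hcm⟩ : ∃ c, c = m (((1 + R) / 2 : ℝ) : ℂ) := ⟨_, rfl⟩
  have hconst : ∀ z ∈ A, k z = c * z := by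
    intro z hz
    have h1 : m z = m (((1 + R) / 2 : ℝ) : ℂ) :=
      hAo.is_const_of_deriv_eq_zero hAc hmd hderiv hz hz0
    rw [← hcm] at h1
    rw [← h1]
    exact (div_mul_cancel₀ _ (hne z hz)).symm
  refine ⟨c, ?_, fun z h1 h2 => hconst z ⟨h1, h2⟩⟩
  -- the modulus
  have hreal : ∀ r : ℝ, 1 < r → r < R → 1 < ‖c‖ * r ∧ ‖c‖ * r < R := by
    intro r h1 h2
    have hn : ‖(r : ℂ)‖ = r := by rw [Complex.norm_real, Real.norm_of_nonneg (by linarith)]
    have h3 := hm (r : ℂ) (by rw [hn]; exact h1) (by rw [hn]; exact h2)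
    rw [hconst (r : ℂ) ⟨by rw [hn]; exact h1, by rw [hn]; exact h2⟩, norm_mul, hn] at h3
    exact h3
  apply le_antisymm
  · by_contra hlt
    push Not at hlt
    -- take `r` close to `R`
    obtain ⟨r, hr1, hr2⟩ := exists_between (show max 1 (R / ‖c‖) < R by
      rw [max_lt_iff]
      exact ⟨hR, by rw [div_lt_iff₀ (by linarith)]; nlinarith⟩)
    rw [max_lt_iff] at hr1
    have := (hreal r hr1.1 hr2).2
    have h5 := hr1.2
    rw [div_lt_iff₀ (by linarith)] at h5
    linarith
  · by_contra hlt
    push Not at hlt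
    have hc0 : 0 < ‖c‖ := by
      have := (hreal ((1 + R) / 2) (by linarith) (by linarith)).1
      by_contra h
      have h0 : ‖c‖ = 0 := le_antisymm (not_lt.1 h) (norm_nonneg _)
      rw [h0, zero_mul] at this
      linarith
    obtain ⟨r, hr1, hr2⟩ := exists_between (show 1 < min R (1 / ‖c‖) by
      rw [lt_min_iff]
      exact ⟨hR, by rw [lt_div_iff₀ hc0]; linarith⟩)
    rw [lt_min_iff] at hr2
    have := (hreal r hr1 hr2.1).1
    have h5 := hr2.2
    rw [lt_div_iff₀ hc0] at h5
    linarith

lemma infty_nhds (N : Set (OnePoint ℂ)) (hN : N ∈ 𝓝 (OnePoint.infty : OnePoint ℂ)) :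
    ∃ r : ℝ, 0 < r ∧ OnePoint.infty ∈ N ∧ ∀ z : ℂ, r < ‖z‖ → (z : OnePoint ℂ) ∈ N := by
  have h1 := hN
  rw [OnePoint.nhds_infty_eq, Filter.coclosedCompact_eq_cocompact] at h1
  have h2 := (mem_sup.1 h1).1
  rw [mem_map, Metric.mem_cocompact_iff_closedBall_compl_subset (0 : ℂ)] at h2
  obtain ⟨r, hr⟩ := h2
  refine ⟨max r 1, by positivity, mem_of_mem_nhds hN, ?_⟩
  intro z hz
  apply hr
  rw [mem_compl_iff, mem_closedBall_zero_iff, not_le]
  exact lt_of_le_of_lt (le_max_left _ _) hz

lemma ball_compl_nhds (r : ℝ) :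
    (((↑) : ℂ → OnePoint ℂ) '' Metric.closedBall 0 r)ᶜ ∈ 𝓝 (OnePoint.infty : OnePoint ℂ) ∧
      IsOpen (((↑) : ℂ → OnePoint ℂ) '' Metric.closedBall 0 r)ᶜ := by
  have ho : IsOpen (((↑) : ℂ → OnePoint ℂ) '' Metric.closedBall 0 r)ᶜ :=
    OnePoint.isOpen_compl_image_coe.2 ⟨Metric.isClosed_closedBall, isCompact_closedBall 0 r⟩
  exact ⟨ho.mem_nhds OnePoint.infty_notMem_image_coe, ho⟩

/-- Small punctured neighbourhoods in the one point compactification of the plane can be chosen
connected. -/
theorem punctured_nhds (y : OnePoint ℂ) (N : Set (OnePoint ℂ)) (hN : N ∈ 𝓝 y) :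
    ∃ M ∈ 𝓝 y, M ⊆ N ∧ IsPreconnected (M \ {y}) := by
  induction y using OnePoint.rec with
  | infty =>
    obtain ⟨r, hr0, hi, hr⟩ := infty_nhds N hN
    refine ⟨_, (ball_compl_nhds r).1, ?_, ?_⟩
    · intro x hx
      induction x using OnePoint.rec with
      | infty => exact hi
      | coe z =>
        apply hr
        by_contra hz
        exact hx ⟨z, by rw [mem_closedBall_zero_iff]; exact not_lt.1 hz, rfl⟩
    · have h1 := (polar_preconn 0 (Ioi r) isPreconnected_Ioi
        (fun s hs => hr0.le.trans (le_of_lt hs))).image ((↑) : ℂ → OnePoint ℂ)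
        OnePoint.continuous_coe.continuousOn
      convert h1 using 1
      ext x
      induction x using OnePoint.rec with
      | infty =>
        simp [OnePoint.infty_notMem_image_coe]
      | coe z =>
        rw [OnePoint.coe_injective.mem_set_image, Set.mem_sdiff, mem_compl_iff,
          OnePoint.coe_injective.mem_set_image, mem_closedBall_zero_iff, not_le]
        simp
  | coe z0 =>
    rw [OnePoint.nhds_coe_eq, mem_map, Metric.mem_nhds_iff] at hN
    obtain ⟨r, hr, hsub⟩ := hN
    refine ⟨((↑) : ℂ → OnePoint ℂ) '' Metric.ball z0 r, ?_, ?_, ?_⟩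
    · exact OnePoint.isOpenMap_coe.image_mem_nhds (Metric.ball_mem_nhds z0 hr)
    · exact image_subset_iff.2 hsub
    · have h1 := (polar_preconn z0 (Ioo 0 r) isPreconnected_Ioo
        (fun s hs => le_of_lt hs.1)).image ((↑) : ℂ → OnePoint ℂ)
        OnePoint.continuous_coe.continuousOn
      convert h1 using 1
      ext x
      induction x using OnePoint.rec with
      | infty => simp [OnePoint.infty_notMem_image_coe]
      | coe z =>
        rw [OnePoint.coe_injective.mem_set_image, Set.mem_sdiff,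
          OnePoint.coe_injective.mem_set_image, mem_ball_iff_norm]
        simp only [mem_singleton_iff, OnePoint.coe_eq_coe, mem_ofPred_eq, mem_Ioo, norm_pos_iff,
          sub_ne_zero]
        tauto

/-- Around every point of the sphere there are arbitrarily small open neighbourhoods with
connected complement. -/
theorem small_nhds_compl_connected (y : OnePoint ℂ) (N : Set (OnePoint ℂ)) (hN : N ∈ 𝓝 y) :
    ∃ M ∈ 𝓝 y, M ⊆ N ∧ IsOpen M ∧ IsPreconnected Mᶜ := by
  induction y using OnePoint.rec with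
  | infty =>
    obtain ⟨r, hr0, hi, hr⟩ := infty_nhds N hN
    refine ⟨_, (ball_compl_nhds r).1, ?_, (ball_compl_nhds r).2, ?_⟩
    · intro x hx
      induction x using OnePoint.rec with
      | infty => exact hi
      | coe z =>
        apply hr
        by_contra hz
        exact hx ⟨z, by rw [mem_closedBall_zero_iff]; exact not_lt.1 hz, rfl⟩
    · rw [compl_compl]
      exact (convex_closedBall (0 : ℂ) r).isPreconnected.image _
        OnePoint.continuous_coe.continuousOn
  | coe z0 =>
    rw [OnePoint.nhds_coe_eq, mem_map, Metric.mem_nhds_iff] at hN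
    obtain ⟨r, hr, hsub⟩ := hN
    refine ⟨((↑) : ℂ → OnePoint ℂ) '' Metric.ball z0 r, ?_, ?_, ?_, ?_⟩
    · exact OnePoint.isOpenMap_coe.image_mem_nhds (Metric.ball_mem_nhds z0 hr)
    · exact image_subset_iff.2 hsub
    · exact OnePoint.isOpenMap_coe _ Metric.isOpen_ball
    · have h1 := (polar_preconn z0 (Ici r) isPreconnected_Ici
        (fun s hs => hr.le.trans hs)).image ((↑) : ℂ → OnePoint ℂ)
        OnePoint.continuous_coe.continuousOn
      refine h1.subset_closure ?_ ?_
      · rintro _ ⟨z, hz, rfl⟩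
        rw [mem_compl_iff, OnePoint.coe_injective.mem_set_image, mem_ball_iff_norm, not_lt]
        exact hz
      · intro x hx
        induction x using OnePoint.rec with
        | infty =>
          rw [mem_closure_iff_nhds]
          intro t ht
          obtain ⟨s, hs0, _, hs⟩ := infty_nhds t ht
          refine ⟨((z0 + ((‖z0‖ + s + r + 1 + ‖z0‖ : ℝ) : ℂ) : ℂ) : OnePoint ℂ), hs _ ?_, ⟨_, ?_, rfl⟩⟩
          · have h2 : ‖((‖z0‖ + s + r + 1 + ‖z0‖ : ℝ) : ℂ)‖ = ‖z0‖ + s + r + 1 + ‖z0‖ := by
              rw [Complex.norm_real, Real.norm_of_nonneg]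
              have := norm_nonneg z0
              linarith
            have h3 := norm_sub_le (z0 + ((‖z0‖ + s + r + 1 + ‖z0‖ : ℝ) : ℂ)) z0
            rw [add_sub_cancel_left, h2] at h3
            have h4 := norm_nonneg z0
            linarith
          · rw [mem_ofPred_eq, add_sub_cancel_left, Complex.norm_real, Real.norm_of_nonneg, mem_Ici]
            · have := norm_nonneg z0
              linarith
            · have := norm_nonneg z0
              linarith
        | coe z =>
          apply subset_closure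
          rw [mem_compl_iff, OnePoint.coe_injective.mem_set_image, mem_ball_iff_norm, not_lt] at hx
          exact ⟨z, hx, rfl⟩

/-- No isolated points. -/
theorem no_isolated (y : OnePoint ℂ) : (𝓝[≠] y).NeBot := inferInstance

end Pool.Agent.Helper114.Rot
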