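import Mathlib
import Pool.Agent.KS6_19.DA.L.Helper114.MontelSol
import Pool.Agent.KS6_19.DA.L.Helper114.Rot

set_option autoImplicit false

open Set Filter Topology Metric

namespace Pool.Agent.Helper114.Konig

/-- round annulus -/
def An (s : ℝ) : Set ℂ := {ζ : ℂ | Real.exp (-s) < ‖ζ‖ ∧ ‖ζ‖ < Real.exp s}

theorem isOpen_An (s : ℝ) : IsOpen (An s) :=
  (isOpen_lt continuous_const continuous_norm).inter (isOpen_lt continuous_norm continuous_const)

theorem preconn_An (s : ℝ) : IsPreconnected (An s) := by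
  have := Pool.Agent.Helper114.Rot.polar_preconn 0 (Ioo (Real.exp (-s)) (Real.exp s))
    isPreconnected_Ioo (fun r hr => by have := hr.1; have := Real.exp_pos (-s); linarith)
  simpa [An] using this

theorem mem_An_of_norm_one {s : ℝ} (hs : 0 < s) {ζ : ℂ} (h : ‖ζ‖ = 1) : ζ ∈ An s := by
  constructor
  · rw [h]; exact Real.exp_lt_one_iff.2 (by linarith)
  · rw [h]; exact Real.one_lt_exp_iff.2 hs

theorem mul_mem_An {s : ℝ} {μ ζ : ℂ} (hμ : ‖μ‖ = 1) (h : ζ ∈ An s) : μ * ζ ∈ An s := by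
  have h1 : ‖μ * ζ‖ = ‖ζ‖ := by rw [norm_mul, hμ, one_mul]
  exact ⟨by rw [h1]; exact h.1, by rw [h1]; exact h.2⟩

/-- local boundedness of a sequence of functions -/
def LB (U : Set ℂ) (F : ℕ → ℂ → ℂ) : Prop :=
  ∀ z ∈ U, ∃ N ∈ 𝓝 z, ∃ M : ℝ, ∀ n, ∀ y ∈ N, ‖F n y‖ ≤ M

/-- Montel along an ultrafilter for locally bounded sequences. -/
theorem locmontel {U : Set ℂ} (hU : IsOpen U) (F : ℕ → ℂ → ℂ)
    (hF : ∀ n, DifferentiableOn ℂ (F n) U) (hb : LB U F) (𝒰 : Ultrafilter ℕ) :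
    ∃ Φ : ℂ → ℂ, DifferentiableOn ℂ Φ U ∧ ∀ z ∈ U, Tendsto (fun n => F n z) 𝒰 (𝓝 (Φ z)) := by
  have h1 : ∀ z, ∃ v : ℂ, z ∈ U → Tendsto (fun n => F n z) 𝒰 (𝓝 v) := by
    intro z
    by_cases hz : z ∈ U
    · obtain ⟨N, hN, M, hM⟩ := hb z hz
      have hcomp := isCompact_closedBall (0 : ℂ) M
      have hle : ((𝒰.map (fun n => F n z) : Ultrafilter ℂ) : Filter ℂ) ≤ 𝓟 (closedBall 0 M) := by
        rw [le_principal_iff, Ultrafilter.coe_map, Filter.mem_map]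
        refine Filter.mem_of_superset Filter.univ_mem ?_
        intro n _
        show F n z ∈ closedBall 0 M
        rw [mem_closedBall_zero_iff]
        exact hM n z (mem_of_mem_nhds hN)
      obtain ⟨v, -, hv⟩ := hcomp.ultrafilter_le_nhds _ hle
      exact ⟨v, fun _ => hv⟩
    · exact ⟨0, fun h => absurd h hz⟩
  choose Φ hΦ using h1
  refine ⟨Φ, ?_, fun z hz => hΦ z hz⟩
  intro z hz
  obtain ⟨N, hN, M, hM⟩ := hb z hz
  obtain ⟨W, hWs, hWo, hzW⟩ := _root_.mem_nhds_iff.1 (inter_mem hN (hU.mem_nhds hz))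
  obtain ⟨Ψ, hΨ, hlim⟩ := Pool.Agent.Helper114.Montel.montel hWo F
    (fun n => (hF n).mono (fun x hx => (hWs hx).2)) M (fun n y hy => hM n y (hWs hy).1) 𝒰
  have heq : ∀ w ∈ W, Φ w = Ψ w := fun w hw =>
    tendsto_nhds_unique (hΦ w (hWs hw).2) (hlim.tendsto_at hw)
  have h2 : DifferentiableAt ℂ Ψ z := (hΨ z hzW).differentiableAt (hWo.mem_nhds hzW)
  have h3 : Φ =ᶠ[𝓝 z] Ψ := by
    filter_upwards [hWo.mem_nhds hzW] with w hw using heq w hw
  exact (h3.differentiableAt_iff.2 h2).differentiableWithinAt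


theorem exists_pow_near_one {μ : ℂ} (hμ : ‖μ‖ = 1) {ε : ℝ} (hε : 0 < ε) :
    ∃ n : ℕ, 0 < n ∧ ‖μ ^ n - 1‖ < ε := by
  have hmem : ∀ n : ℕ, μ ^ n ∈ closedBall (0 : ℂ) 1 := fun n => by
    rw [mem_closedBall_zero_iff, norm_pow, hμ, one_pow]
  obtain ⟨a, -, ψ, hψ, hlim⟩ := (isCompact_closedBall (0 : ℂ) 1).tendsto_subseq hmem
  have h1 : ∀ᶠ k in atTop, dist (μ ^ ψ k) a < ε / 2 :=
    hlim (ball_mem_nhds a (by linarith))
  obtain ⟨k, hk⟩ := (h1.and ((tendsto_add_atTop_nat 1).eventually h1)).exists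
  have hlt : ψ k < ψ (k + 1) := hψ (Nat.lt_succ_self k)
  refine ⟨ψ (k + 1) - ψ k, by omega, ?_⟩
  have h2 : μ ^ ψ (k + 1) = μ ^ (ψ (k + 1) - ψ k) * μ ^ ψ k := by
    rw [← pow_add]; congr 1; omega
  have h3 : ‖μ ^ (ψ (k + 1) - ψ k) - 1‖ = ‖μ ^ ψ (k + 1) - μ ^ ψ k‖ := by
    rw [h2]
    have : μ ^ (ψ (k + 1) - ψ k) * μ ^ ψ k - μ ^ ψ k = (μ ^ (ψ (k + 1) - ψ k) - 1) * μ ^ ψ k := by ring
    rw [this, norm_mul, norm_pow, hμ, one_pow, mul_one]
  rw [h3, ← dist_eq_norm]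
  calc dist (μ ^ ψ (k + 1)) (μ ^ ψ k) ≤ dist (μ ^ ψ (k + 1)) a + dist (μ ^ ψ k) a :=
        dist_triangle_right _ _ _
    _ < ε := by linarith [hk.1, hk.2]

/-- a sequence of return times -/
theorem exists_return {μ : ℂ} (hμ : ‖μ‖ = 1) :
    ∃ ν : ℕ → ℕ, (∀ k, 0 < ν k) ∧ Tendsto (fun k => μ ^ ν k) atTop (𝓝 1) := by
  have h1 : ∀ k : ℕ, ∃ n : ℕ, 0 < n ∧ ‖μ ^ n - 1‖ < 1 / ((k : ℝ) + 1) := fun k =>
    exists_pow_near_one hμ (by positivity)
  choose ν hν1 hν2 using h1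
  refine ⟨ν, hν1, ?_⟩
  rw [tendsto_iff_norm_sub_tendsto_zero]
  exact squeeze_zero (fun k => norm_nonneg _) (fun k => (hν2 k).le)
    tendsto_one_div_add_atTop_nhds_zero_nat

theorem invariant_const {μ : ℂ} (hμ : ‖μ‖ = 1) (hμi : ∀ n : ℕ, 0 < n → μ ^ n ≠ 1) {s : ℝ}
    (hs : 0 < s) {m : ℂ → ℂ} (hm : DifferentiableOn ℂ m (An s))
    (hinv : ∀ ζ ∈ An s, m (μ * ζ) = m ζ) : ∀ ζ ∈ An s, m ζ = m 1 := by
  have h1 : (1 : ℂ) ∈ An s := mem_An_of_norm_one hs norm_one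
  have hpow : ∀ n : ℕ, μ ^ n ∈ An s ∧ m (μ ^ n) = m 1 := by
    intro n
    induction n with
    | zero => simpa using h1
    | succ n ih =>
      rw [pow_succ']
      exact ⟨mul_mem_An hμ ih.1, by rw [hinv _ ih.1, ih.2]⟩
  obtain ⟨ν, hν1, hν2⟩ := exists_return hμ
  have hfr : ∃ᶠ z in 𝓝[≠] (1 : ℂ), m z = m 1 := by
    have h2 : Tendsto (fun k => μ ^ ν k) atTop (𝓝[≠] 1) :=
      tendsto_nhdsWithin_of_tendsto_nhds_of_eventually_within _ hν2
        (Eventually.of_forall fun k => hμi _ (hν1 k))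
    exact h2.frequently (Frequently.of_forall fun k => (hpow (ν k)).2)
  have han : AnalyticOnNhd ℂ m (An s) := hm.analyticOnNhd (isOpen_An s)
  exact han.eqOn_of_preconnected_of_frequently_eq (g := fun _ => m 1) analyticOnNhd_const
    (preconn_An s) h1 hfr

theorem iterate_mapsTo {U : Set ℂ} {F : ℂ → ℂ} (hFU : MapsTo F U U) (n : ℕ) :
    MapsTo (F^[n]) U U := hFU.iterate n

theorem iterate_diff {U : Set ℂ} {F : ℂ → ℂ} (hF : DifferentiableOn ℂ F U) (hFU : MapsTo F U U)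
    (n : ℕ) : DifferentiableOn ℂ (F^[n]) U := by
  induction n with
  | zero => simpa using differentiableOn_id
  | succ n ih =>
    rw [Function.iterate_succ']
    exact hF.comp ih (hFU.iterate n)

theorem iterate_phi {F φ : ℂ → ℂ} {μ : ℂ} (hμ : ‖μ‖ = 1) {s : ℝ}
    (hFφ : ∀ ζ ∈ An s, F (φ ζ) = φ (μ * ζ)) (n : ℕ) : ∀ ζ ∈ An s,
    μ ^ n * ζ ∈ An s ∧ F^[n] (φ ζ) = φ (μ ^ n * ζ) := by
  intro ζ hζ
  induction n with
  | zero => simpa using hζ
  | succ n ih =>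
    rw [Function.iterate_succ_apply', ih.2, hFφ _ ih.1, pow_succ', mul_assoc]
    exact ⟨mul_mem_An hμ ih.1, rfl⟩

/-- Recurrence: along a sequence of return times the iterates tend to the identity. -/
theorem recurrence {U : Set ℂ} (hU : IsOpen U) (hUc : IsPreconnected U) {F : ℂ → ℂ}
    (hF : DifferentiableOn ℂ F U) (hFU : MapsTo F U U) (hb : LB U (fun n => F^[n]))
    {μ : ℂ} (hμ : ‖μ‖ = 1) {s : ℝ} (hs : 0 < s) {φ : ℂ → ℂ} (hφ : DifferentiableOn ℂ φ (An s))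
    (hφU : MapsTo φ (An s) U) (hinj : InjOn φ (An s)) (hFφ : ∀ ζ ∈ An s, F (φ ζ) = φ (μ * ζ)) :
    ∃ (ν : ℕ → ℕ) (𝒰 : Ultrafilter ℕ), (∀ k, 0 < ν k) ∧
      Tendsto (fun k => μ ^ ν k) 𝒰 (𝓝 1) ∧
      ∀ z ∈ U, Tendsto (fun k => F^[ν k] z) 𝒰 (𝓝 z) := by
  obtain ⟨ν, hν1, hν2⟩ := exists_return hμ
  set 𝒰 : Ultrafilter ℕ := Filter.hyperfilter ℕ with h𝒰
  have hle : (𝒰 : Filter ℕ) ≤ atTop := Nat.hyperfilter_le_atTop
  have hν3 : Tendsto (fun k => μ ^ ν k) 𝒰 (𝓝 1) := hν2.mono_left hle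
  obtain ⟨G, hG, hlim⟩ := locmontel hU (fun k => F^[ν k])
    (fun k => iterate_diff hF hFU _) (by
      intro z hz
      obtain ⟨N, hN, M, hM⟩ := hb z hz
      exact ⟨N, hN, M, fun k y hy => hM _ y hy⟩) 𝒰
  have hGφ : ∀ ζ ∈ An s, G (φ ζ) = φ ζ := by
    intro ζ hζ
    have h1 := hlim (φ ζ) (hφU hζ)
    have h2 : Tendsto (fun k => F^[ν k] (φ ζ)) 𝒰 (𝓝 (φ ζ)) := by
      have h3 : (fun k => F^[ν k] (φ ζ)) = fun k => φ (μ ^ ν k * ζ) :=
        funext fun k => (iterate_phi hμ hFφ (ν k) ζ hζ).2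
      rw [h3]
      have h4 : Tendsto (fun k => μ ^ ν k * ζ) 𝒰 (𝓝 ζ) := by
        simpa using hν3.mul_const ζ
      exact ((hφ.differentiableAt ((isOpen_An s).mem_nhds hζ)).continuousAt.tendsto).comp h4
    exact tendsto_nhds_unique h1 h2
  have h1 : (1 : ℂ) ∈ An s := mem_An_of_norm_one hs norm_one
  have hGid : EqOn G id U := by
    have hGa : AnalyticOnNhd ℂ G U := hG.analyticOnNhd hU
    refine hGa.eqOn_of_preconnected_of_frequently_eq analyticOnNhd_id hUc (hφU h1) ?_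
    have h2 : Tendsto φ (𝓝[≠] 1) (𝓝[≠] (φ 1)) := by
      refine tendsto_nhdsWithin_of_tendsto_nhds_of_eventually_within _
        (((hφ.differentiableAt ((isOpen_An s).mem_nhds h1)).continuousAt.tendsto).mono_left
          nhdsWithin_le_nhds) ?_
      have h3 : ∀ᶠ ζ in 𝓝[≠] (1 : ℂ), ζ ∈ An s :=
        nhdsWithin_le_nhds ((isOpen_An s).mem_nhds h1)
      filter_upwards [h3, self_mem_nhdsWithin] with ζ hζ hne h
      exact hne (hinj hζ h1 h)
    refine h2.frequently ?_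
    have h3 : ∀ᶠ ζ in 𝓝[≠] (1 : ℂ), ζ ∈ An s :=
      nhdsWithin_le_nhds ((isOpen_An s).mem_nhds h1)
    refine Eventually.frequently ?_
    filter_upwards [h3] with ζ hζ using hGφ ζ hζ
  refine ⟨ν, 𝒰, hν1, hν3, fun z hz => ?_⟩
  have := hlim z hz
  rwa [hGid hz] at this

theorem injOn_of_recurrence {U : Set ℂ} {F : ℂ → ℂ} {ν : ℕ → ℕ} {𝒰 : Ultrafilter ℕ}
    (hν : ∀ k, 0 < ν k) (h : ∀ z ∈ U, Tendsto (fun k => F^[ν k] z) 𝒰 (𝓝 z)) : InjOn F U := by
  intro x hx y hy hxy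
  have h1 : (fun k => F^[ν k] x) = fun k => F^[ν k] y := by
    funext k
    obtain ⟨j, hj⟩ := Nat.exists_eq_succ_of_ne_zero (hν k).ne'
    rw [hj, Function.iterate_succ_apply, Function.iterate_succ_apply, hxy]
  have h2 := h x hx
  rw [h1] at h2
  exact tendsto_nhds_unique h2 (h y hy)


/-- averages -/
noncomputable def av (μ : ℂ) (F : ℂ → ℂ) (n : ℕ) (z : ℂ) : ℂ :=
  (1 / ((n : ℂ) + 1)) * ∑ k ∈ Finset.range (n + 1), μ⁻¹ ^ k * F^[k] z

theorem norm_av_sub_le {μ : ℂ} (hμ : ‖μ‖ = 1) {F : ℂ → ℂ} {z c : ℂ} {M : ℝ}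
    (h : ∀ k, ‖μ⁻¹ ^ k * F^[k] z - c‖ ≤ M) (n : ℕ) : ‖av μ F n z - c‖ ≤ M := by
  have hn : (0 : ℝ) < (n : ℝ) + 1 := by positivity
  have hn' : ((n : ℂ) + 1) ≠ 0 := by
    have : ((n : ℂ) + 1) = ((n + 1 : ℕ) : ℂ) := by push_cast; ring
    rw [this]; exact_mod_cast Nat.succ_ne_zero n
  have e : av μ F n z - c =
      (1 / ((n : ℂ) + 1)) * ∑ k ∈ Finset.range (n + 1), (μ⁻¹ ^ k * F^[k] z - c) := by
    unfold av
    rw [Finset.sum_sub_distrib, Finset.sum_const, Finset.card_range, nsmul_eq_mul]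
    push_cast
    field_simp
  rw [e, norm_mul]
  have h1 : ‖(1 / ((n : ℂ) + 1))‖ = 1 / ((n : ℝ) + 1) := by
    have : ((n : ℂ) + 1) = (((n : ℝ) + 1 : ℝ) : ℂ) := by push_cast; ring
    rw [this, norm_div, norm_one, Complex.norm_real, Real.norm_of_nonneg hn.le]
  rw [h1]
  have h2 : ‖∑ k ∈ Finset.range (n + 1), (μ⁻¹ ^ k * F^[k] z - c)‖ ≤ ((n : ℝ) + 1) * M := by
    refine (norm_sum_le _ _).trans ?_
    refine (Finset.sum_le_card_nsmul _ _ M fun k _ => h k).trans ?_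
    rw [Finset.card_range, nsmul_eq_mul]
    push_cast
    exact le_refl _
  calc 1 / ((n : ℝ) + 1) * ‖∑ k ∈ Finset.range (n + 1), (μ⁻¹ ^ k * F^[k] z - c)‖
      ≤ 1 / ((n : ℝ) + 1) * (((n : ℝ) + 1) * M) := mul_le_mul_of_nonneg_left h2 (by positivity)
    _ = M := by field_simp

theorem av_F {μ : ℂ} (hμ : ‖μ‖ = 1) (F : ℂ → ℂ) (n : ℕ) (z : ℂ) :
    av μ F n (F z) = μ * av μ F n z +
      μ * ((1 / ((n : ℂ) + 1)) * (μ⁻¹ ^ (n + 1) * F^[n + 1] z - z)) := by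
  have hμ0 : μ ≠ 0 := by rintro rfl; simp at hμ
  have h1 : ∑ k ∈ Finset.range (n + 1), μ⁻¹ ^ k * F^[k] (F z) =
      μ * (∑ k ∈ Finset.range (n + 1), μ⁻¹ ^ k * F^[k] z + (μ⁻¹ ^ (n + 1) * F^[n + 1] z - z)) := by
    have h2 : ∑ k ∈ Finset.range (n + 1), μ⁻¹ ^ k * F^[k] z + μ⁻¹ ^ (n + 1) * F^[n + 1] z =
        ∑ k ∈ Finset.range (n + 1), μ⁻¹ ^ (k + 1) * F^[k + 1] z + z := by
      rw [← Finset.sum_range_succ (fun k => μ⁻¹ ^ k * F^[k] z) (n + 1), Finset.sum_range_succ']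
      simp
    have h3 : ∑ k ∈ Finset.range (n + 1), μ⁻¹ ^ k * F^[k] z + (μ⁻¹ ^ (n + 1) * F^[n + 1] z - z) =
        ∑ k ∈ Finset.range (n + 1), μ⁻¹ ^ (k + 1) * F^[k + 1] z := by
      linear_combination h2
    rw [h3, Finset.mul_sum]
    refine Finset.sum_congr rfl fun k _ => ?_
    rw [Function.iterate_succ_apply, pow_succ]
    field_simp
  unfold av
  rw [h1]
  ring

/-- The linearizer. -/
theorem exists_L {U : Set ℂ} (hU : IsOpen U) (hUc : IsPreconnected U) {F : ℂ → ℂ}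
    (hF : DifferentiableOn ℂ F U) (hFU : MapsTo F U U) (hb : LB U (fun n => F^[n]))
    {μ : ℂ} (hμ : ‖μ‖ = 1) (hμi : ∀ n : ℕ, 0 < n → μ ^ n ≠ 1) {s r0 : ℝ} (hs : 0 < s)
    (hr0 : 0 < r0) {φ : ℂ → ℂ} (hφ : DifferentiableOn ℂ φ (An s))
    (hφU : MapsTo φ (An s) U) (hinj : InjOn φ (An s)) (hFφ : ∀ ζ ∈ An s, F (φ ζ) = φ (μ * ζ))
    (hφ1 : ∀ ζ ∈ An s, ‖φ ζ - r0 * ζ‖ ≤ r0 / 10) :
    ∃ L : ℂ → ℂ, DifferentiableOn ℂ L U ∧ (∀ z ∈ U, L (F z) = μ * L z) ∧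
      (∀ ζ ∈ An s, L (φ ζ) = ζ) ∧ (∀ z ∈ U, L z ≠ 0 → deriv L z ≠ 0) := by
  have hμ0 : μ ≠ 0 := by rintro rfl; simp at hμ
  have hμ' : ‖μ⁻¹‖ = 1 := by rw [norm_inv, hμ, inv_one]
  obtain ⟨ν, 𝒰, hν1, hν2, hν3⟩ := recurrence hU hUc hF hFU hb hμ hs hφ hφU hinj hFφ
  set 𝒱 : Ultrafilter ℕ := Filter.hyperfilter ℕ with h𝒱
  have hle : (𝒱 : Filter ℕ) ≤ atTop := Nat.hyperfilter_le_atTop
  have hFinj : InjOn F U := injOn_of_recurrence hν1 hν3
  have hFn : ∀ n, DifferentiableOn ℂ (F^[n]) U := fun n => iterate_diff hF hFU n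
  have havd : ∀ n, DifferentiableOn ℂ (av μ F n) U := by
    intro n
    unfold av
    refine DifferentiableOn.const_mul ?_ _
    exact DifferentiableOn.fun_sum fun k _ => (hFn k).const_mul _
  have havb : LB U (av μ F) := by
    intro z hz
    obtain ⟨N, hN, M, hM⟩ := hb z hz
    refine ⟨N, hN, M, fun n y hy => ?_⟩
    have h1 := norm_av_sub_le hμ (F := F) (z := y) (c := 0) (M := M) (by
      intro k
      rw [sub_zero, norm_mul, norm_pow, hμ', one_pow, one_mul]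
      exact hM k y hy) n
    simpa using h1
  obtain ⟨L0, hL0, hlim⟩ := locmontel hU (av μ F) havd havb 𝒱
  have hL0F : ∀ z ∈ U, L0 (F z) = μ * L0 z := by
    intro z hz
    have h1 := hlim (F z) (hFU hz)
    have h2 := hlim z hz
    obtain ⟨N, hN, M, hM⟩ := hb z hz
    have hzN := mem_of_mem_nhds hN
    have h3 : Tendsto (fun n : ℕ => μ * ((1 / ((n : ℂ) + 1)) * (μ⁻¹ ^ (n + 1) * F^[n + 1] z - z)))
        atTop (𝓝 0) := by
      have h4 : Tendsto (fun n : ℕ => (1 / ((n : ℝ) + 1)) * (M + ‖z‖)) atTop (𝓝 0) := by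
        simpa using tendsto_one_div_add_atTop_nhds_zero_nat.mul_const (M + ‖z‖)
      refine squeeze_zero_norm (fun n => ?_) h4
      have h5 : ‖(1 / ((n : ℂ) + 1))‖ = 1 / ((n : ℝ) + 1) := by
        have : ((n : ℂ) + 1) = (((n : ℝ) + 1 : ℝ) : ℂ) := by push_cast; ring
        rw [this, norm_div, norm_one, Complex.norm_real, Real.norm_of_nonneg (by positivity)]
      rw [norm_mul, hμ, one_mul, norm_mul, h5]
      refine mul_le_mul_of_nonneg_left ?_ (by positivity)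
      refine (norm_sub_le _ _).trans (add_le_add_left ?_ _)
      rw [norm_mul, norm_pow, hμ', one_pow, one_mul]
      exact hM (n + 1) z hzN
    have h6 : Tendsto (fun n => av μ F n (F z)) 𝒱 (𝓝 (μ * L0 z + 0)) := by
      have h7 : (fun n => av μ F n (F z)) = fun n => μ * av μ F n z +
          μ * ((1 / ((n : ℂ) + 1)) * (μ⁻¹ ^ (n + 1) * F^[n + 1] z - z)) :=
        funext fun n => av_F hμ F n z
      rw [h7]
      exact (h2.const_mul μ).add (h3.mono_left hle)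
    rw [add_zero] at h6
    exact tendsto_nhds_unique h1 h6
  have h1An : (1 : ℂ) ∈ An s := mem_An_of_norm_one hs norm_one
  have hne : ∀ ζ ∈ An s, ζ ≠ 0 := by
    rintro ζ hζ rfl
    have h1 := hζ.1
    have h2 := Real.exp_pos (-s)
    rw [norm_zero] at h1
    linarith
  -- the constant
  set a : ℂ := L0 (φ 1) with ha
  have hconst : ∀ ζ ∈ An s, L0 (φ ζ) = a * ζ := by
    have hm : DifferentiableOn ℂ (fun ζ => L0 (φ ζ) / ζ) (An s) :=
      (hL0.comp hφ hφU).div differentiableOn_id hne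
    have h2 := invariant_const hμ hμi hs hm (by
      intro ζ hζ
      rw [← hFφ ζ hζ, hL0F _ (hφU hζ)]
      have := hne ζ hζ
      field_simp)
    intro ζ hζ
    have h3 := h2 ζ hζ
    simp only [div_one] at h3
    rw [div_eq_iff (hne ζ hζ)] at h3
    exact h3
  have ha0 : a ≠ 0 := by
    have h2 : ∀ n, ‖av μ F n (φ 1) - r0‖ ≤ r0 / 10 := by
      intro n
      refine norm_av_sub_le hμ ?_ n
      intro k
      obtain ⟨h3, h4⟩ := iterate_phi hμ hFφ k 1 h1An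
      rw [mul_one] at h3 h4
      rw [h4]
      have h5 := hφ1 _ h3
      have h6 : μ⁻¹ ^ k * φ (μ ^ k) - r0 = μ⁻¹ ^ k * (φ (μ ^ k) - r0 * μ ^ k) := by
        have : μ⁻¹ ^ k * μ ^ k = 1 := by rw [← mul_pow, inv_mul_cancel₀ hμ0, one_pow]
        linear_combination (r0 : ℂ) * this
      rw [h6, norm_mul, norm_pow, hμ', one_pow, one_mul]
      exact h5
    have h7 := hlim (φ 1) (hφU h1An)
    have h8 : ‖a - r0‖ ≤ r0 / 10 :=
      le_of_tendsto ((h7.sub_const _).norm) (Eventually.of_forall h2)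
    intro h9
    rw [h9, zero_sub, norm_neg, Complex.norm_real, Real.norm_of_nonneg hr0.le] at h8
    linarith
  refine ⟨fun z => L0 z / a, hL0.div_const a, ?_, ?_, ?_⟩
  · intro z hz
    simp only
    rw [hL0F z hz]
    ring
  · intro ζ hζ
    simp only
    rw [hconst ζ hζ, mul_div_cancel_left₀ _ ha0]
  · intro z hz hLz hd
    have hL0z : L0 z ≠ 0 := by
      intro h
      exact hLz (by simp [h])
    have hd0 : deriv L0 z = 0 := by
      have h1 : deriv (fun z => L0 z / a) z = deriv L0 z / a := deriv_div_const a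
      rw [h1] at hd
      exact (div_eq_zero_iff.1 hd).resolve_right ha0
    have hL0n : ∀ n : ℕ, ∀ y ∈ U, L0 (F^[n] y) = μ ^ n * L0 y := by
      intro n
      induction n with
      | zero => intro y _; simp
      | succ n ih =>
        intro y hy
        rw [Function.iterate_succ_apply', hL0F _ (hFU.iterate n hy), ih y hy, pow_succ']
        ring
    have hinjn : ∀ n, InjOn (F^[n]) U := by
      intro n
      induction n with
      | zero => intro x _ y _ h; simpa using h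
      | succ n ih =>
        intro x hx y hy h
        rw [Function.iterate_succ_apply', Function.iterate_succ_apply'] at h
        exact ih hx hy (hFinj (hFU.iterate n hx) (hFU.iterate n hy) h)
    have hdn : ∀ n, deriv L0 (F^[n] z) = 0 := by
      intro n
      have h1 : deriv (F^[n]) z ≠ 0 :=
        Pool.Agent.Helper114.Montel.deriv_ne_zero_of_injOn hU _ (hFn n) (hinjn n) hz
      have hzn : F^[n] z ∈ U := hFU.iterate n hz
      have h2 : HasDerivAt (F^[n]) (deriv (F^[n]) z) z :=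
        ((hFn n).differentiableAt (hU.mem_nhds hz)).hasDerivAt
      have h3 : HasDerivAt L0 (deriv L0 (F^[n] z)) (F^[n] z) :=
        (hL0.differentiableAt (hU.mem_nhds hzn)).hasDerivAt
      have h4 := h3.comp z h2
      have h5 : HasDerivAt (fun y => μ ^ n * L0 y) (μ ^ n * deriv L0 z) z :=
        ((hL0.differentiableAt (hU.mem_nhds hz)).hasDerivAt).const_mul _
      have h6 : (L0 ∘ F^[n]) =ᶠ[𝓝 z] fun y => μ ^ n * L0 y := by
        filter_upwards [hU.mem_nhds hz] with y hy using hL0n n y hy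
      have h7 := (h4.congr_of_eventuallyEq h6.symm).unique h5
      rw [hd0, mul_zero] at h7
      exact (mul_eq_zero.1 h7).resolve_right h1
    have hfr : ∃ᶠ w in 𝓝[≠] z, deriv L0 w = 0 := by
      have h1 : Tendsto (fun k => F^[ν k] z) 𝒰 (𝓝[≠] z) := by
        refine tendsto_nhdsWithin_of_tendsto_nhds_of_eventually_within _ (hν3 z hz) ?_
        refine Eventually.of_forall fun k => ?_
        intro h
        have h' : F^[ν k] z = z := h
        have h2 := hL0n (ν k) z hz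
        rw [h'] at h2
        have h3 : (μ ^ ν k - 1) * L0 z = 0 := by linear_combination -h2
        rcases mul_eq_zero.1 h3 with h4 | h4
        · exact hμi _ (hν1 k) (sub_eq_zero.1 h4)
        · exact hL0z h4
      exact h1.frequently (Frequently.of_forall fun k => hdn (ν k))
    have hL0a : AnalyticOnNhd ℂ (deriv L0) U := (hL0.analyticOnNhd hU).deriv
    have hz0 := hL0a.eqOn_zero_of_preconnected_of_frequently_eq_zero hUc hz hfr
    -- contradiction at `φ 1`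
    have h1 : HasDerivAt L0 (deriv L0 (φ 1)) (φ 1) :=
      (hL0.differentiableAt (hU.mem_nhds (hφU h1An))).hasDerivAt
    rw [hz0 (hφU h1An)] at h1
    have h2 : HasDerivAt φ (deriv φ 1) 1 :=
      (hφ.differentiableAt ((isOpen_An s).mem_nhds h1An)).hasDerivAt
    have h3 := h1.comp (1 : ℂ) h2
    have h4 : HasDerivAt (fun ζ : ℂ => a * ζ) (a * 1) 1 := (hasDerivAt_id (1 : ℂ)).const_mul a
    have h5 : (L0 ∘ φ) =ᶠ[𝓝 (1 : ℂ)] fun ζ => a * ζ := by
      filter_upwards [(isOpen_An s).mem_nhds h1An] with ζ hζ using hconst ζ hζ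
    have h6 := (h3.congr_of_eventuallyEq h5.symm).unique h4
    simp only [Pi.zero_apply, zero_mul, mul_one] at h6
    exact ha0 h6.symm

end Pool.Agent.Helper114.Konig
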